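import Mathlib
import Pool.Agent.Lib.MP_a849c1_nt.Gap
import Pool.Agent.Lib.MP_a849c1_nt.Upper

/-!
No `K_{15,15}` in a Diophantine graph: the gap principle is used with independent indices.
-/

set_option autoImplicit false

namespace Pool.Agent.Lib.MP_a849c1_nt_h19

open Pool.Agent.Lib

/-- Two increasing sequences of length `15` of positive integers with all `a i * b j + 1` squares. -/
structure Config (a b : ℕ → ℕ) : Prop where
  ha : ∀ i j, i < j → j < 15 → a i < a j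
  hb : ∀ i j, i < j → j < 15 → b i < b j
  ha0 : ∀ i, i < 15 → 0 < a i
  hb0 : ∀ i, i < 15 → 0 < b i
  hsq : ∀ i j, i < 15 → j < 15 → ∃ s, a i * b j + 1 = s ^ 2

lemma Config.swap {a b : ℕ → ℕ} (h : Config a b) : Config b a where
  ha := h.hb
  hb := h.ha
  ha0 := h.hb0
  hb0 := h.ha0
  hsq i j hi hj := by
    obtain ⟨s, hs⟩ := h.hsq j i hj hi
    exact ⟨s, by rw [mul_comm]; exact hs⟩

lemma Config.gap {a b : ℕ → ℕ} (h : Config a b) (i j : ℕ) (hi : i + 2 < 15) (hj : j + 1 < 15) :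
    64 * b j ^ 3 * a i ^ 2 ≤ b (j + 1) * a (i + 2) ^ 2 := by
  obtain ⟨s1, hs1⟩ := h.hsq i j (by omega) (by omega)
  obtain ⟨s2, hs2⟩ := h.hsq (i + 1) j (by omega) (by omega)
  obtain ⟨s3, hs3⟩ := h.hsq (i + 2) j (by omega) (by omega)
  obtain ⟨y1, hy1⟩ := h.hsq i (j + 1) (by omega) (by omega)
  obtain ⟨y2, hy2⟩ := h.hsq (i + 1) (j + 1) (by omega) (by omega)
  obtain ⟨y3, hy3⟩ := h.hsq (i + 2) (j + 1) (by omega) (by omega)
  exact MP_a849c1_nt.gap (a i) (a (i + 1)) (a (i + 2)) (b j) (b (j + 1)) s1 s2 s3 y1 y2 y3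
    (h.ha0 i (by omega)) (h.ha i (i + 1) (by omega) (by omega))
    (h.ha (i + 1) (i + 2) (by omega) (by omega)) (h.hb0 j (by omega))
    (h.hb j (j + 1) (by omega) (by omega)) hs1 hs2 hs3 hy1 hy2 hy3

lemma Config.gapLog {a b : ℕ → ℕ} (h : Config a b) (i j : ℕ) (hi : i + 2 < 15) (hj : j + 1 < 15) :
    Real.log 64 + 3 * Real.log (b j) + 2 * Real.log (a i) ≤
      Real.log (b (j + 1)) + 2 * Real.log (a (i + 2)) := by
  have h1 := h.gap i j hi hj
  have h2 : (64 : ℝ) * (b j : ℝ) ^ 3 * (a i : ℝ) ^ 2 ≤ (b (j + 1) : ℝ) * (a (i + 2) : ℝ) ^ 2 := by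
    exact_mod_cast h1
  have p1 : (0 : ℝ) < b j := by exact_mod_cast h.hb0 j (by omega)
  have p2 : (0 : ℝ) < a i := by exact_mod_cast h.ha0 i (by omega)
  have p3 : (0 : ℝ) < b (j + 1) := by exact_mod_cast h.hb0 (j + 1) (by omega)
  have p4 : (0 : ℝ) < a (i + 2) := by exact_mod_cast h.ha0 (i + 2) (by omega)
  have h3 := Real.log_le_log (by positivity) h2
  rw [Real.log_mul (by positivity) (by positivity), Real.log_mul (by positivity) (by positivity),
    Real.log_mul (by positivity) (by positivity), Real.log_pow, Real.log_pow, Real.log_pow] at h3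
  push_cast at h3
  linarith

lemma Config.key {a b : ℕ → ℕ} (h : Config a b) (hab : a 2 ≤ b 2) :
    4096 ^ 10 * a 2 ^ 360 ≤ b 10 ∨ 4096 ^ 10 * b 2 ^ 360 ≤ a 10 := by
  have hL : 0 < Real.log 64 := Real.log_pos (by norm_num)
  have hL2 : Real.log 4096 = 2 * Real.log 64 := by
    have e : (4096 : ℝ) = 64 ^ 2 := by norm_num
    rw [e, Real.log_pow]
    norm_num
  have hx : ∀ i, i < 15 → 0 ≤ Real.log (a i) := fun i hi =>
    Real.log_nonneg (by exact_mod_cast h.ha0 i hi)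
  have p2 : (0 : ℝ) < a 2 := by exact_mod_cast h.ha0 2 (by omega)
  have q2 : (0 : ℝ) < b 2 := by exact_mod_cast h.hb0 2 (by omega)
  have p10 : (0 : ℝ) < a 10 := by exact_mod_cast h.ha0 10 (by omega)
  have q10 : (0 : ℝ) < b 10 := by exact_mod_cast h.hb0 10 (by omega)
  have hxy : Real.log (a 2) ≤ Real.log (b 2) := Real.log_le_log p2 (by exact_mod_cast hab)
  have conv : ∀ u v : ℕ, (0 : ℝ) < u → (0 : ℝ) < v →
      20 * Real.log 64 + 360 * Real.log u ≤ Real.log v → 4096 ^ 10 * u ^ 360 ≤ v := by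
    intro u v hu hv huv
    have h1 : Real.log ((4096 : ℝ) ^ 10 * (u : ℝ) ^ 360) ≤ Real.log v := by
      rw [Real.log_mul (by positivity) (by positivity), Real.log_pow, Real.log_pow, hL2]
      push_cast
      linarith
    have h2 := (Real.log_le_log_iff (by positivity) hv).1 h1
    exact_mod_cast h2
  have x0 := hx 0 (by norm_num)
  have x2 := hx 2 (by norm_num)
  -- the sequence b against a 2
  have g2 := h.gapLog 0 2 (by norm_num) (by norm_num)
  have g3 := h.gapLog 0 3 (by norm_num) (by norm_num)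
  have g4 := h.gapLog 0 4 (by norm_num) (by norm_num)
  have g5 := h.gapLog 0 5 (by norm_num) (by norm_num)
  have g6 := h.gapLog 0 6 (by norm_num) (by norm_num)
  have g7 := h.gapLog 0 7 (by norm_num) (by norm_num)
  have g8 := h.gapLog 0 8 (by norm_num) (by norm_num)
  have g9 := h.gapLog 0 9 (by norm_num) (by norm_num)
  -- the sequence a against b 4 / b 2
  have k2 := h.swap.gapLog 2 2 (by norm_num) (by norm_num)
  have k3 := h.swap.gapLog 2 3 (by norm_num) (by norm_num)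
  have k4 := h.swap.gapLog 2 4 (by norm_num) (by norm_num)
  have k5 := h.swap.gapLog 2 5 (by norm_num) (by norm_num)
  have k6 := h.swap.gapLog 2 6 (by norm_num) (by norm_num)
  have k7 := h.swap.gapLog 2 7 (by norm_num) (by norm_num)
  have k8 := h.swap.gapLog 2 8 (by norm_num) (by norm_num)
  have k9 := h.swap.gapLog 2 9 (by norm_num) (by norm_num)
  norm_num at g2 g3 g4 g5 g6 g7 g8 g9 k2 k3 k4 k5 k6 k7 k8 k9
  have hr : 0 ≤ Real.log (b 4) - Real.log (b 2) := by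
    have : Real.log (b 2) ≤ Real.log (b 4) := Real.log_le_log q2 (by
      exact_mod_cast (h.hb 2 4 (by norm_num) (by norm_num)).le)
    linarith
  rcases le_total (Real.log (a 2) / 2) (Real.log (b 4) - Real.log (b 2)) with hc | hc
  · left
    apply conv _ _ p2 q10
    linarith
  · right
    apply conv _ _ q2 p10
    linarith

lemma Config.chain {a b : ℕ → ℕ} (h : Config a b) (hab : 4096 ^ 10 * a 2 ^ 360 ≤ b 10) :
    False := by
  have ha01 := h.ha 0 1 (by norm_num) (by norm_num)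
  have ha12 := h.ha 1 2 (by norm_num) (by norm_num)
  have ha0 := h.ha0 0 (by norm_num)
  have ha2 : 3 ≤ a 2 := by omega
  have hpow : ∀ n, n ≤ 360 → a 2 ^ n ≤ b 10 := fun n hn =>
    ((Nat.pow_le_pow_right (by omega) hn).trans (Nat.le_mul_of_pos_left _ (by norm_num))).trans hab
  have step : ∀ j, j + 1 < 15 → b j ^ 3 ≤ b (j + 1) * a 2 ^ 2 := by
    intro j hj
    have h1 := h.gap 0 j (by norm_num) hj
    calc b j ^ 3 = b j ^ 3 * 1 := by ring
      _ ≤ b j ^ 3 * (64 * a 0 ^ 2) := Nat.mul_le_mul_left _ (Nat.mul_pos (by norm_num) (by positivity))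
      _ = 64 * b j ^ 3 * a 0 ^ 2 := by ring
      _ ≤ b (j + 1) * a 2 ^ 2 := h1
  have hB0 : 0 < b 10 := h.hb0 10 (by norm_num)
  have chain : b 10 ^ 80 ≤ b 14 := by
    have s10 := step 10 (by norm_num)
    have s11 := step 11 (by norm_num)
    have s12 := step 12 (by norm_num)
    have s13 := step 13 (by norm_num)
    have e : b 10 ^ 81 ≤ b 14 * a 2 ^ 80 := by
      calc b 10 ^ 81 = (b 10 ^ 3) ^ 27 := by rw [← pow_mul]
        _ ≤ (b 11 * a 2 ^ 2) ^ 27 := Nat.pow_le_pow_left s10 27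
        _ = (b 11 ^ 3) ^ 9 * a 2 ^ 54 := by rw [mul_pow, ← pow_mul, ← pow_mul]
        _ ≤ (b 12 * a 2 ^ 2) ^ 9 * a 2 ^ 54 := Nat.mul_le_mul_right _ (Nat.pow_le_pow_left s11 9)
        _ = (b 12 ^ 3) ^ 3 * a 2 ^ 72 := by
            rw [mul_pow, ← pow_mul, ← pow_mul, mul_assoc, ← pow_add]
        _ ≤ (b 13 * a 2 ^ 2) ^ 3 * a 2 ^ 72 := Nat.mul_le_mul_right _ (Nat.pow_le_pow_left s12 3)
        _ = b 13 ^ 3 * a 2 ^ 78 := by rw [mul_pow, ← pow_mul, mul_assoc, ← pow_add]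
        _ ≤ b 14 * a 2 ^ 2 * a 2 ^ 78 := Nat.mul_le_mul_right _ s13
        _ = b 14 * a 2 ^ 80 := by rw [mul_assoc, ← pow_add]
    have e2 : b 10 ^ 80 * b 10 ≤ b 14 * b 10 := by
      calc b 10 ^ 80 * b 10 = b 10 ^ 81 := by rw [← pow_succ]
        _ ≤ b 14 * a 2 ^ 80 := e
        _ ≤ b 14 * b 10 := Nat.mul_le_mul_left _ (hpow 80 (by norm_num))
    exact Nat.le_of_mul_le_mul_right e2 hB0
  obtain ⟨d1, hd1⟩ : ∃ d, a 1 = a 0 + d := ⟨a 1 - a 0, by omega⟩
  obtain ⟨d2, hd2⟩ : ∃ d, a 2 = a 1 + d := ⟨a 2 - a 1, by omega⟩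
  obtain ⟨s1, hs1⟩ := h.hsq 0 10 (by norm_num) (by norm_num)
  obtain ⟨s2, hs2⟩ := h.hsq 1 10 (by norm_num) (by norm_num)
  obtain ⟨s3, hs3⟩ := h.hsq 2 10 (by norm_num) (by norm_num)
  obtain ⟨y1, hy1⟩ := h.hsq 0 14 (by norm_num) (by norm_num)
  obtain ⟨y2, hy2⟩ := h.hsq 1 14 (by norm_num) (by norm_num)
  obtain ⟨y3, hy3⟩ := h.hsq 2 14 (by norm_num) (by norm_num)
  have hd2' : a 2 = a 0 + d1 + d2 := by omega
  refine MP_a849c1_nt.upper (a 0) d1 d2 (b 10) (b 14) s1 s2 s3 y1 y2 y3 ha0 (by omega) (by omega)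
    hs1 (by rw [← hd1]; exact hs2) (by rw [← hd2']; exact hs3) hy1 (by rw [← hd1]; exact hy2)
    (by rw [← hd2']; exact hy3) ?_ ?_
  · rw [← hd2']
    have e1 : (4096 * (a 2 ^ 6) ^ 6) ^ 10 = 4096 ^ 10 * a 2 ^ 360 := by
      rw [mul_pow, ← pow_mul, ← pow_mul]
    rw [e1]
    exact hab
  · rw [← hd2', ← hd1]
    have e1 : a 1 * a 2 * (a 0 * b 10 + 1) ≤ b 10 ^ 2 := by
      have f1 : a 0 * b 10 + 1 ≤ 2 * (a 2 * b 10) := by
        have g1 : a 0 * b 10 ≤ a 2 * b 10 := Nat.mul_le_mul_right _ (by omega)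
        have g2 : 1 ≤ a 2 * b 10 := Nat.mul_pos (by omega) hB0
        omega
      have f2 : 2 * a 2 ^ 3 ≤ b 10 := by
        refine le_trans ?_ (hpow 4 (by norm_num))
        calc 2 * a 2 ^ 3 ≤ a 2 * a 2 ^ 3 := Nat.mul_le_mul_right _ (by omega)
          _ = a 2 ^ 4 := by ring
      calc a 1 * a 2 * (a 0 * b 10 + 1) ≤ a 2 * a 2 * (2 * (a 2 * b 10)) :=
            Nat.mul_le_mul (Nat.mul_le_mul_right _ ha12.le) f1
        _ = (2 * a 2 ^ 3) * b 10 := by ring
        _ ≤ b 10 * b 10 := Nat.mul_le_mul_right _ f2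
        _ = b 10 ^ 2 := by ring
    calc (a 1 * a 2 * (a 0 * b 10 + 1)) ^ 28 ≤ (b 10 ^ 2) ^ 28 := Nat.pow_le_pow_left e1 28
      _ = b 10 ^ 56 := by rw [← pow_mul]
      _ ≤ b 10 ^ 80 := Nat.pow_le_pow_right hB0 (by norm_num)
      _ ≤ b 14 := chain

lemma Config.false' {a b : ℕ → ℕ} (h : Config a b) (hab : a 2 ≤ b 2) : False := by
  rcases h.key hab with h1 | h1
  · exact h.chain h1
  · exact h.swap.chain h1

lemma Config.false {a b : ℕ → ℕ} (h : Config a b) : False := by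
  rcases le_total (a 2) (b 2) with h1 | h1
  · exact h.false' h1
  · exact h.swap.false' h1

/-- There are no two sets of `15` positive integers with all `a b + 1` squares. -/
theorem no_K15 (A B : Finset ℕ) (hA : A.card = 15) (hB : B.card = 15) (hA0 : ∀ a ∈ A, 0 < a)
    (hB0 : ∀ b ∈ B, 0 < b) (hsq : ∀ a ∈ A, ∀ b ∈ B, IsSquare (a * b + 1)) : False := by
  set f := A.orderEmbOfFin hA with hf
  set g := B.orderEmbOfFin hB with hg
  let a : ℕ → ℕ := fun n => if h : n < 15 then f ⟨n, h⟩ else 0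
  let b : ℕ → ℕ := fun n => if h : n < 15 then g ⟨n, h⟩ else 0
  have ea : ∀ i (hi : i < 15), a i = f ⟨i, hi⟩ := fun i hi => dif_pos hi
  have eb : ∀ i (hi : i < 15), b i = g ⟨i, hi⟩ := fun i hi => dif_pos hi
  have hc : Config a b := by
    refine ⟨?_, ?_, ?_, ?_, ?_⟩
    · intro i j hij hj
      rw [ea i (by omega), ea j hj]
      exact f.strictMono (by simpa using hij)
    · intro i j hij hj
      rw [eb i (by omega), eb j hj]
      exact g.strictMono (by simpa using hij)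
    · intro i hi
      rw [ea i hi]
      exact hA0 _ (Finset.orderEmbOfFin_mem A hA _)
    · intro i hi
      rw [eb i hi]
      exact hB0 _ (Finset.orderEmbOfFin_mem B hB _)
    · intro i j hi hj
      rw [ea i hi, eb j hj]
      obtain ⟨s, hs⟩ := hsq _ (Finset.orderEmbOfFin_mem A hA ⟨i, hi⟩) _
        (Finset.orderEmbOfFin_mem B hB ⟨j, hj⟩)
      exact ⟨s, by rw [hs]; ring⟩
  exact hc.false

end Pool.Agent.Lib.MP_a849c1_nt_h19
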